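import Pool.Agent.Q151.Zig.Exc

/-!
# The abstract lower bound
-/

set_option autoImplicit false

open Set Filter Topology MeasureTheory

namespace Pool.Agent.Q151.Zig

variable {E : Type*} [PseudoMetricSpace E]

/-- the counting step -/
lemma count_bad {B : Set ℝ} {N : ℕ} (hN : 0 < N) (bad : Finset ℕ)
    (hB : volume B ≤ ENNReal.ofReal (9 / 100))
    (hbad : ∀ j ∈ bad, ENNReal.ofReal (1 / (4 * N)) ≤
      volume (Ioo ((j : ℝ) / N) (((j : ℝ) + 1) / N) ∩ B)) :
    (bad.card : ℝ) ≤ 36 / 100 * N := by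
  have hN0 : (0 : ℝ) < N := by exact_mod_cast hN
  have hdisj : (bad : Set ℕ).PairwiseDisjoint
      fun j : ℕ => Ioo ((j : ℝ) / N) (((j : ℝ) + 1) / N) := by
    intro i _ j _ hij
    rw [Function.onFun, disjoint_left]
    rintro z ⟨h1, h2⟩ ⟨h3, h4⟩
    rw [div_lt_iff₀ hN0] at h1 h3
    rw [lt_div_iff₀ hN0] at h2 h4
    have h5 : (i : ℝ) < j + 1 := by linarith
    have h6 : (j : ℝ) < i + 1 := by linarith
    have h7 : i < j + 1 := by exact_mod_cast h5
    have h8 : j < i + 1 := by exact_mod_cast h6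
    omega
  have h1 : ∑ j ∈ bad, (volume.restrict B) (Ioo ((j : ℝ) / N) (((j : ℝ) + 1) / N)) ≤
      volume B := by
    rw [← measure_biUnion_finset hdisj fun j _ => measurableSet_Ioo]
    refine (measure_mono (subset_univ _)).trans ?_
    rw [Measure.restrict_apply_univ]
  have h2 : (bad.card : ENNReal) * ENNReal.ofReal (1 / (4 * N)) ≤ volume B := by
    refine le_trans ?_ h1
    rw [← nsmul_eq_mul]
    apply Finset.card_nsmul_le_sum
    intro j hj
    rw [Measure.restrict_apply measurableSet_Ioo]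
    exact hbad j hj
  have h3 := h2.trans hB
  rw [← ENNReal.ofReal_natCast, ← ENNReal.ofReal_mul (by positivity),
    ENNReal.ofReal_le_ofReal_iff (by norm_num)] at h3
  rw [mul_one_div, div_le_iff₀ (by positivity)] at h3
  linarith

/-- **the abstract bound** -/
theorem exc_bound {K : Set E} (hK : IsClosed K) {p q : E} (hp : p ∈ K) (hq : q ∈ K)
    {xc : E → ℝ} (hxc : Continuous xc) {C : NNReal} (hC : (C : ℝ) ≤ 9)
    (hS : ∀ n : ℕ, ∃ S : E → ℝ, LipschitzWith C S ∧ S p = 0 ∧ S q = 1 ∧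
      ∀ j : ℕ, ∀ P ∈ K, ∀ Q ∈ K, (j : ℝ) < 3 ^ n * S P → 3 ^ n * S P < j + 1 / 4 →
        (j : ℝ) + 3 / 4 < 3 ^ n * S Q → 3 ^ n * S Q < j + 1 → 1 / 2 ≤ |xc P - xc Q|)
    {γ : ℝ → E} (hγ : ContinuousOn γ (Icc 0 1)) (h0 : γ 0 = p) (h1 : γ 1 = q) :
    ENNReal.ofReal (1 / 100) ≤ lengthOutside γ K := by
  classical
  by_contra hcon
  rw [not_le] at hcon
  -- uniform continuity
  have huc : UniformContinuousOn (xc ∘ γ) (Icc (0 : ℝ) 1) :=
    isCompact_Icc.uniformContinuousOn_of_continuous (hxc.comp_continuousOn hγ)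
  rw [Metric.uniformContinuousOn_iff] at huc
  obtain ⟨δ, hδ, hδ'⟩ := huc (1 / 2) (by norm_num)
  obtain ⟨n, hn⟩ := pow_unbounded_of_one_lt (100 / 64 / δ) (by norm_num : (1 : ℝ) < 3)
  obtain ⟨S, hSl, hSp, hSq, hSj⟩ := hS n
  have hN : 0 < 3 ^ n := by positivity
  have hN0 : (0 : ℝ) < 3 ^ n := by positivity
  have hNc : (((3 ^ n : ℕ) : ℝ)) = 3 ^ n := by push_cast; rfl
  let σ : ℝ → ℝ := S ∘ γ
  have hσ : ContinuousOn σ (Icc 0 1) := hSl.continuous.comp_continuousOn hγ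
  have hσ0 : σ 0 = 0 := by simp [σ, h0, hSp]
  have hσ1 : σ 1 = 1 := by simp [σ, h1, hSq]
  let B : Set ℝ := σ '' outside γ K
  have hB : volume B ≤ ENNReal.ofReal (9 / 100) := by
    refine (volume_image_le hK hγ (by rw [h0]; exact hp) (by rw [h1]; exact hq) hSl).trans ?_
    have e1 : ENNReal.ofReal (9 / 100) = ENNReal.ofReal 9 * ENNReal.ofReal (1 / 100) := by
      rw [← ENNReal.ofReal_mul (by norm_num)]; norm_num
    rw [e1]
    have e2 : (C : ENNReal) ≤ ENNReal.ofReal 9 := by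
      rw [← ENNReal.ofReal_coe_nnreal]
      exact ENNReal.ofReal_le_ofReal hC
    gcongr
  -- first times of points outside `B`
  have hfirst : ∀ s ∈ Icc (0 : ℝ) 1, s ∉ B → γ (fst σ s) ∈ K := by
    intro s hs hsB
    by_contra hnot
    have := fst_mem hσ hσ0 hσ1 hs
    exact hsB ⟨_, ⟨this.1, hnot⟩, this.2⟩
  let lo : ℕ → Set ℝ := fun j => Ioo ((j : ℝ) / 3 ^ n) (((j : ℝ) + 1 / 4) / 3 ^ n)
  let hi : ℕ → Set ℝ := fun j => Ioo (((j : ℝ) + 3 / 4) / 3 ^ n) (((j : ℝ) + 1) / 3 ^ n)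
  let bad : Finset ℕ := (Finset.range (3 ^ n)).filter fun j => lo j ⊆ B ∨ hi j ⊆ B
  have hbadcard : (bad.card : ℝ) ≤ 36 / 100 * 3 ^ n := by
    have := count_bad (B := B) hN bad hB ?_
    · rwa [hNc] at this
    · intro j hj
      rw [hNc]
      simp only [bad, Finset.mem_filter] at hj
      rcases hj.2 with h | h
      · have e1 : volume (lo j) = ENNReal.ofReal (1 / (4 * 3 ^ n)) := by
          rw [Real.volume_Ioo]
          congr 1
          field_simp
          ring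
        rw [← e1]
        apply measure_mono
        intro z hz
        refine ⟨⟨hz.1, hz.2.trans ?_⟩, h hz⟩
        gcongr
        norm_num
      · have e1 : volume (hi j) = ENNReal.ofReal (1 / (4 * 3 ^ n)) := by
          rw [Real.volume_Ioo]
          congr 1
          field_simp
          ring
        rw [← e1]
        apply measure_mono
        intro z hz
        refine ⟨⟨lt_of_le_of_lt ?_ hz.1, hz.2⟩, h hz⟩
        gcongr
        norm_num
  -- the times
  let Tm : ℕ → ℝ := fun j => fst σ ((j : ℝ) / 3 ^ n)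
  have hTm : ∀ j < 3 ^ n, Tm j ≤ Tm (j + 1) := by
    intro j hj
    apply fst_mono hσ hσ0 hσ1 (by positivity)
    · push_cast
      gcongr
      norm_num
    · rw [div_le_one hN0]
      exact_mod_cast hj
  have hgood : ∀ j ∈ (Finset.range (3 ^ n)) \ bad, δ ≤ Tm (j + 1) - Tm j := by
    intro j hj
    simp only [bad, Finset.mem_sdiff, Finset.mem_filter, Finset.mem_range, not_and, not_or] at hj
    obtain ⟨hjN, hj2⟩ := hj
    obtain ⟨h3, h4⟩ := hj2 hjN
    rw [not_subset] at h3 h4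
    obtain ⟨s, hs, hsB⟩ := h3
    obtain ⟨s', hs', hsB'⟩ := h4
    have hjN' : ((j : ℝ) + 1) / 3 ^ n ≤ 1 := by
      rw [div_le_one hN0]
      exact_mod_cast hjN
    have a1 : (0 : ℝ) ≤ (j : ℝ) / 3 ^ n := by positivity
    have a2 : ((j : ℝ) + 1 / 4) / 3 ^ n ≤ ((j : ℝ) + 3 / 4) / 3 ^ n := by
      gcongr; norm_num
    have a3 : ((j : ℝ) + 3 / 4) / 3 ^ n ≤ ((j : ℝ) + 1) / 3 ^ n := by
      gcongr; norm_num
    have b1 : s ∈ Icc (0 : ℝ) 1 := ⟨a1.trans hs.1.le, by linarith [hs.2]⟩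
    have b2 : s' ∈ Icc (0 : ℝ) 1 := ⟨by linarith [hs'.1, hs.1, hs.2], hs'.2.le.trans hjN'⟩
    have c1 := fst_mem hσ hσ0 hσ1 b1
    have c2 := fst_mem hσ hσ0 hσ1 b2
    have hss : s ≤ s' := by linarith [hs.2, hs'.1]
    have m1 : Tm j ≤ fst σ s := fst_mono hσ hσ0 hσ1 a1 hs.1.le b1.2
    have m2 : fst σ s ≤ fst σ s' := fst_mono hσ hσ0 hσ1 b1.1 hss b2.2
    have m3 : fst σ s' ≤ Tm (j + 1) := by
      apply fst_mono hσ hσ0 hσ1 b2.1
      · push_cast; exact hs'.2.le
      · push_cast; exact hjN'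
    have key := hSj j (γ (fst σ s)) (hfirst s b1 hsB) (γ (fst σ s')) (hfirst s' b2 hsB')
    have d1 : S (γ (fst σ s)) = s := c1.2
    have d2 : S (γ (fst σ s')) = s' := c2.2
    rw [d1, d2] at key
    have e1 := hs.1
    have e2 := hs.2
    have e3 := hs'.1
    have e4 := hs'.2
    rw [div_lt_iff₀ hN0] at e1 e3
    rw [lt_div_iff₀ hN0] at e2 e4
    have hk := key (by linarith) (by linarith) (by linarith) (by linarith)
    by_contra hlt
    rw [not_le] at hlt
    have hd := hδ' _ c1.1 _ c2.1 (by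
      rw [Real.dist_eq, abs_sub_comm, abs_of_nonneg (by linarith)]
      linarith)
    rw [Real.dist_eq] at hd
    simp only [Function.comp] at hd
    linarith
  have hsum : ∑ j ∈ Finset.range (3 ^ n), (Tm (j + 1) - Tm j) ≤ 1 := by
    rw [Finset.sum_range_sub]
    have g1 : (((3 ^ n : ℕ) : ℝ)) / 3 ^ n = 1 := by
      rw [hNc]; exact div_self hN0.ne'
    have f1 := (fst_mem hσ hσ0 hσ1 (s := ((3 ^ n : ℕ) : ℝ) / 3 ^ n)
      ⟨by positivity, g1.le⟩).1.2
    have f2 := (fst_mem hσ hσ0 hσ1 (s := ((0 : ℕ) : ℝ) / 3 ^ n)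
      ⟨by simp, by simp⟩).1.1
    simp only [Tm]
    linarith
  have hsum2 : (((Finset.range (3 ^ n)) \ bad).card : ℝ) * δ ≤ 1 := by
    calc (((Finset.range (3 ^ n)) \ bad).card : ℝ) * δ
        = ∑ _j ∈ (Finset.range (3 ^ n)) \ bad, δ := by simp
      _ ≤ ∑ j ∈ (Finset.range (3 ^ n)) \ bad, (Tm (j + 1) - Tm j) := Finset.sum_le_sum hgood
      _ ≤ ∑ j ∈ Finset.range (3 ^ n), (Tm (j + 1) - Tm j) := by
        apply Finset.sum_le_sum_of_subset_of_nonneg Finset.sdiff_subset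
        intro j hj _
        have := hTm j (Finset.mem_range.mp hj)
        linarith
      _ ≤ 1 := hsum
  have hcard : (64 / 100 * 3 ^ n : ℝ) ≤ (((Finset.range (3 ^ n)) \ bad).card : ℝ) := by
    have h5 : bad ⊆ Finset.range (3 ^ n) := Finset.filter_subset _ _
    rw [Finset.card_sdiff_of_subset h5, Finset.card_range, Nat.cast_sub
      (by simpa using Finset.card_le_card h5), hNc]
    linarith
  have h6 : (64 / 100 * 3 ^ n : ℝ) * δ ≤ 1 := le_trans (by gcongr) hsum2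
  rw [div_div, div_lt_iff₀ (by positivity)] at hn
  nlinarith

end Pool.Agent.Q151.Zig
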