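import Pool.Agent.Q151.Zig.Strand
import Pool.Agent.Q151.Zig.Bound

/-!
# The zigzag continuum
-/

set_option autoImplicit false

open Set Filter Topology

namespace Pool.Agent.Q151.Zig

/-! ### the position on the strand -/

/-- orientation of the strand number `J` -/
def ori (e : Bool) (J : ℕ) : Bool := if J % 2 = 0 then e else !e

lemma ori_step (e : Bool) (n : ℕ) (d : Fin 3) (J : ℕ) :
    ori (nx e d) J = ori e (3 ^ n * d.val + J) := by
  have h3 : 3 ^ n % 2 = 1 := by
    rw [Nat.pow_mod]; simp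
  rcases fin3 d with h | h | h <;> subst h
  · simp [nx, ori]
  · have : (3 ^ n * (1 : Fin 3).val + J) % 2 = (1 + J) % 2 := by
      simp [Nat.add_mod, h3]
    unfold ori
    rw [this]
    rcases Nat.mod_two_eq_zero_or_one J with h | h
    · have : (1 + J) % 2 = 1 := by omega
      simp [nx, h, this]
    · have : (1 + J) % 2 = 0 := by omega
      simp [nx, h, this]
  · have : (3 ^ n * (2 : Fin 3).val + J) % 2 = J % 2 := by
      simp [Nat.add_mod, Nat.mul_mod]
    unfold ori
    rw [this]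
    simp [nx]

lemma exists_J (n : ℕ) (x : ℝ) : ∀ (e : Bool) (a : Cs),
    ∃ J : ℕ, 3 ^ n * u n e x a = J + D (ori e J) x := by
  induction n with
  | zero => intro e a; exact ⟨0, by simp [u, ori]⟩
  | succ n ih =>
    intro e a
    obtain ⟨J, hJ⟩ := ih (nx e (a 0)) (tl a)
    refine ⟨3 ^ n * (a 0).val + J, ?_⟩
    rw [← ori_step]
    simp only [u]
    push_cast
    rw [pow_succ]
    have : (3 : ℝ) ^ n * 3 * (((a 0).val + u n (nx e (a 0)) x (tl a)) / 3) =
        3 ^ n * (a 0).val + 3 ^ n * u n (nx e (a 0)) x (tl a) := by ring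
    rw [this, hJ]
    ring

lemma wave {n j : ℕ} {x x' : ℝ} (hx : x ∈ Icc (0 : ℝ) 1) (hx' : x' ∈ Icc (0 : ℝ) 1) {e : Bool}
    {a b : Cs} (h1 : (j : ℝ) < 3 ^ n * u n e x a) (h2 : 3 ^ n * u n e x a < j + 1 / 4)
    (h3 : (j : ℝ) + 3 / 4 < 3 ^ n * u n e x' b) (h4 : 3 ^ n * u n e x' b < j + 1) :
    1 / 2 ≤ |x - x'| := by
  obtain ⟨J, hJ⟩ := exists_J n x e a
  obtain ⟨J', hJ'⟩ := exists_J n x' e b
  have hD := D_mem hx (ori e J)
  have hD' := D_mem hx' (ori e J')
  rw [hJ] at h1 h2
  rw [hJ'] at h3 h4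
  have e1 : (J : ℝ) < j + 1 := by linarith
  have e2 : (j : ℝ) < J + 1 := by linarith
  have e3 : (J' : ℝ) < j + 1 := by linarith
  have e4 : (j : ℝ) < J' + 1 := by linarith
  have f1 : J < j + 1 := by exact_mod_cast e1
  have f2 : j < J + 1 := by exact_mod_cast e2
  have f3 : J' < j + 1 := by exact_mod_cast e3
  have f4 : j < J' + 1 := by exact_mod_cast e4
  have g1 : J = j := by omega
  have g2 : J' = j := by omega
  subst g1
  subst g2
  rw [← D_lip (ori e J') x x', abs_sub_comm]
  have := le_abs_self (D (ori e J') x' - D (ori e J') x)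
  linarith

/-! ### continuity -/

lemma continuous_U : Continuous U := by
  unfold U
  refine continuous_tsum (u := fun k => 2 * ((1 : ℝ) / 3) ^ (k + 1)) ?_ (summable_geo.mul_left 2) ?_
  · intro k
    have : Continuous fun a : Cs => ((a k).val : ℝ) :=
      (continuous_of_discreteTopology (f := fun d : Fin 3 => (d.val : ℝ))).comp (continuous_apply k)
    exact this.mul continuous_const
  · intro k a
    rw [Real.norm_eq_abs, abs_of_nonneg (by positivity)]
    gcongr
    exact val_le _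

lemma continuous_tl : Continuous tl := continuous_pi fun k => continuous_apply (k + 1)

lemma continuous_par (k : ℕ) : Continuous fun q : Bool × Cs => par k q.1 q.2 := by
  induction k with
  | zero => exact continuous_fst
  | succ k ih =>
    have h1 : Continuous fun q : Bool × Cs => (nx q.1 (q.2 0), tl q.2) := by
      refine Continuous.prodMk ?_ (continuous_tl.comp continuous_snd)
      exact (continuous_of_discreteTopology (f := fun p : Bool × Fin 3 => nx p.1 p.2)).comp
        (continuous_fst.prodMk ((continuous_apply 0).comp continuous_snd))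
    exact ih.comp h1

lemma continuous_g : Continuous fun q : (Bool × Fin 3) × ℝ => g q.1.1 q.2 q.1.2 := by
  rw [continuous_prod_of_discrete_left]
  rintro ⟨e, d⟩
  rcases fin3 d with h | h | h <;> subst h
  · simp only [g0]
    cases e <;> simp only [D] <;> simp <;> fun_prop
  · simp only [g1]
    fun_prop
  · simp only [g2]
    cases e <;> simp only [D] <;> simp <;> fun_prop

lemma continuousOn_Z (e : Bool) :
    ContinuousOn (fun q : ℝ × Cs => Z e q.1 q.2) (Icc (0 : ℝ) 1 ×ˢ univ) := by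
  unfold Z
  refine continuousOn_tsum (u := fun k => ((1 : ℝ) / 3) ^ (k + 1)) ?_ summable_geo ?_
  · intro k
    apply Continuous.continuousOn
    have h1 : Continuous fun q : ℝ × Cs => ((par k e q.2, q.2 k), q.1) := by
      refine Continuous.prodMk (Continuous.prodMk ?_ ?_) continuous_fst
      · exact (continuous_par k).comp (continuous_const.prodMk continuous_snd)
      · exact (continuous_apply k).comp continuous_snd
    exact (continuous_g.comp h1).mul continuous_const
  · rintro k ⟨x, a⟩ hq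
    have hx : x ∈ Icc (0 : ℝ) 1 := hq.1
    have := g_mem hx (par k e a) (a k)
    rw [Real.norm_eq_abs, abs_of_nonneg (mul_nonneg this.1 (by positivity))]
    calc g (par k e a) x (a k) * (1 / 3) ^ (k + 1) ≤ 1 * (1 / 3) ^ (k + 1) := by
          gcongr
          exact this.2
      _ = (1 / 3) ^ (k + 1) := one_mul _

/-! ### adjacent sequences -/

/-- the constant sequences -/
def zeros : Cs := fun _ => 0
/-- the constant sequences -/
def twos : Cs := fun _ => 2

/-- adjacent sequences -/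
inductive Adj : Cs → Cs → Prop
  | base0 : Adj (cons 0 twos) (cons 1 zeros)
  | base1 : Adj (cons 1 twos) (cons 2 zeros)
  | step (c : Fin 3) (a b : Cs) : Adj a b → Adj (cons c a) (cons c b)

lemma U_zeros : U zeros = 0 := by
  have := U_rec zeros
  have h : tl zeros = zeros := rfl
  rw [h] at this
  simp [zeros] at this ⊢
  linarith

lemma U_twos : U twos = 1 := by
  have := U_rec twos
  have h : tl twos = twos := rfl
  rw [h] at this
  simp [twos] at this ⊢
  linarith

lemma Z_zeros {x : ℝ} (hx : x ∈ Icc (0 : ℝ) 1) (e : Bool) : Z e x zeros = D e x / 2 := by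
  have := Z_rec hx e zeros
  have h : tl zeros = zeros := rfl
  have h0 : zeros 0 = 0 := rfl
  rw [h, h0, g0] at this
  simp [nx] at this
  linarith

lemma Z_twos {x : ℝ} (hx : x ∈ Icc (0 : ℝ) 1) (e : Bool) : Z e x twos = (1 - D e x) / 2 := by
  have := Z_rec hx e twos
  have h : tl twos = twos := rfl
  have h0 : twos 0 = 2 := rfl
  rw [h, h0, g2] at this
  simp [nx] at this
  linarith

lemma exists_D (e : Bool) : ∃ x ∈ Icc (0 : ℝ) 1, D e x = 1 := by
  cases e
  · exact ⟨1, by simp, by simp [D]⟩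
  · exact ⟨0, by simp, by simp [D]⟩

lemma exists_D' (e : Bool) : ∃ x ∈ Icc (0 : ℝ) 1, D e x = 0 := by
  cases e
  · exact ⟨0, by simp, by simp [D]⟩
  · exact ⟨1, by simp, by simp [D]⟩

lemma Adj.meet {a b : Cs} (h : Adj a b) : ∀ e : Bool, ∃ x ∈ Icc (0 : ℝ) 1,
    U a = U b ∧ Z e x a = Z e x b := by
  induction h with
  | base0 =>
    intro e
    obtain ⟨x, hx, hD⟩ := exists_D e
    refine ⟨x, hx, ?_, ?_⟩
    · rw [U_rec (cons 0 twos), U_rec (cons 1 zeros)]
      simp [U_zeros, U_twos]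
    · rw [Z_rec hx e (cons 0 twos), Z_rec hx e (cons 1 zeros)]
      simp only [cons_zero, tl_cons, g0, g1, Z_twos hx, Z_zeros hx]
      simp [nx, hD]
  | base1 =>
    intro e
    obtain ⟨x, hx, hD⟩ := exists_D' e
    refine ⟨x, hx, ?_, ?_⟩
    · rw [U_rec (cons 1 twos), U_rec (cons 2 zeros)]
      simp [U_zeros, U_twos]
      norm_num
    · rw [Z_rec hx e (cons 1 twos), Z_rec hx e (cons 2 zeros)]
      simp only [cons_zero, tl_cons, g2, g1, Z_twos hx, Z_zeros hx]
      simp [nx, hD]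
  | step c a b _ ih =>
    intro e
    obtain ⟨x, hx, h1, h2⟩ := ih (nx e c)
    refine ⟨x, hx, ?_, ?_⟩
    · rw [U_rec (cons c a), U_rec (cons c b)]
      simp [h1]
    · rw [Z_rec hx e (cons c a), Z_rec hx e (cons c b)]
      simp [h2]

lemma chain (N : ℕ) : ∀ A : Set Cs, (∀ a b : Cs, (∀ k < N, a k = b k) → (a ∈ A ↔ b ∈ A)) →
    (∀ a b, Adj a b → (a ∈ A ↔ b ∈ A)) → ∀ a b : Cs, (a ∈ A ↔ b ∈ A) := by
  induction N with
  | zero => intro A h _ a b; exact h a b (by simp)
  | succ N ih =>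
    intro A h hA
    have key : ∀ c : Fin 3, ∀ α β : Cs, (cons c α ∈ A ↔ cons c β ∈ A) := by
      intro c
      apply ih {α | cons c α ∈ A}
      · intro a b hab
        apply h
        intro k hk
        cases k with
        | zero => rfl
        | succ k => exact hab k (by omega)
      · intro a b hab
        exact hA _ _ (Adj.step c a b hab)
    have h01 : cons 0 twos ∈ A ↔ cons 1 twos ∈ A :=
      (hA _ _ Adj.base0).trans (key 1 _ _)
    have h12 : cons 1 twos ∈ A ↔ cons 2 twos ∈ A :=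
      (hA _ _ Adj.base1).trans (key 2 _ _)
    have h0 : ∀ a : Cs, (a ∈ A ↔ cons 0 twos ∈ A) := by
      intro a
      rw [← cons_tl a]
      rcases fin3 (a 0) with hc | hc | hc <;> rw [hc]
      · exact key 0 _ _
      · exact (key 1 _ _).trans h01.symm
      · exact (key 2 _ _).trans (h01.trans h12).symm
    intro a b
    exact (h0 a).trans (h0 b).symm

/-- clopen sets depend on finitely many coordinates -/
lemma clopen_dep {A : Set Cs} (hA : IsClopen A) :
    ∃ N : ℕ, ∀ a b : Cs, (∀ k < N, a k = b k) → (a ∈ A ↔ b ∈ A) := by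
  by_contra hcon
  push Not at hcon
  have hex : ∀ N : ℕ, ∃ a b : Cs, (∀ k < N, a k = b k) ∧ a ∈ A ∧ b ∉ A := by
    intro N
    obtain ⟨a, b, h1, h2⟩ := hcon N
    rcases h2 with ⟨h2, h3⟩ | ⟨h2, h3⟩
    · exact ⟨a, b, h1, h2, h3⟩
    · exact ⟨b, a, fun k hk => (h1 k hk).symm, h3, h2⟩
  choose a b h1 h2 h3 using hex
  obtain ⟨z, -, φ, hφ, hz⟩ := isCompact_univ.tendsto_subseq (fun n => mem_univ (a n))
  have hb : Tendsto (b ∘ φ) atTop (𝓝 z) := by
    rw [tendsto_pi_nhds] at hz ⊢
    intro k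
    apply (hz k).congr'
    filter_upwards [eventually_gt_atTop k] with n hn
    exact h1 (φ n) k (lt_of_lt_of_le hn (hφ.id_le n))
  have m1 : z ∈ A := hA.isClosed.mem_of_tendsto hz (Eventually.of_forall fun n => h2 _)
  have m2 : z ∈ Aᶜ := hA.compl.isClosed.mem_of_tendsto hb (Eventually.of_forall fun n => h3 _)
  exact m2 m1

/-! ### the continuum in `ℝ^(m+3)` -/

/-- the space -/
abbrev Eu (m : ℕ) := EuclideanSpace ℝ (Fin (m + 3))

/-- the point of the strand `a` with first coordinate `x` -/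
noncomputable def pt (m : ℕ) (x : ℝ) (a : Cs) : Eu m :=
  WithLp.toLp 2 fun i => if i.val = 0 then x else if i.val = 1 then U a else
    if i.val = 2 then Z false x a else 0

/-- the continuum -/
def Kc (m : ℕ) : Set (Eu m) := (fun q : ℝ × Cs => pt m q.1 q.2) '' (Icc (0 : ℝ) 1 ×ˢ univ)

lemma pt_zero (m : ℕ) (x : ℝ) (a : Cs) : pt m x a 0 = x := by simp [pt]
lemma pt_one (m : ℕ) (x : ℝ) (a : Cs) : pt m x a ⟨1, by omega⟩ = U a := by simp [pt]
lemma pt_two (m : ℕ) (x : ℝ) (a : Cs) : pt m x a ⟨2, by omega⟩ = Z false x a := by simp [pt]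

lemma continuousOn_pt (m : ℕ) :
    ContinuousOn (fun q : ℝ × Cs => pt m q.1 q.2) (Icc (0 : ℝ) 1 ×ˢ univ) := by
  unfold pt
  apply (PiLp.continuous_toLp 2 _).comp_continuousOn
  rw [continuousOn_pi]
  intro i
  by_cases h0 : i.val = 0
  · simp only [h0, if_true]
    exact continuous_fst.continuousOn
  · by_cases h1 : i.val = 1
    · simp only [h1, one_ne_zero, if_true, if_false]
      exact (continuous_U.comp continuous_snd).continuousOn
    · by_cases h2 : i.val = 2
      · simp only [h2]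
        simpa using continuousOn_Z false
      · simp only [h0, h1, h2, if_false]
        exact continuousOn_const

lemma isCompact_Kc (m : ℕ) : IsCompact (Kc m) :=
  (isCompact_Icc.prod isCompact_univ).image_of_continuousOn (continuousOn_pt m)

lemma pt_mem {m : ℕ} {x : ℝ} (hx : x ∈ Icc (0 : ℝ) 1) (a : Cs) : pt m x a ∈ Kc m :=
  ⟨(x, a), ⟨hx, mem_univ _⟩, rfl⟩

lemma continuousOn_strand (m : ℕ) (a : Cs) :
    ContinuousOn (fun x : ℝ => pt m x a) (Icc (0 : ℝ) 1) :=
  (continuousOn_pt m).comp (f := fun x : ℝ => (x, a)) (by fun_prop) fun x hx => ⟨hx, mem_univ _⟩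

lemma continuous_base (m : ℕ) : Continuous (fun a : Cs => pt m 0 a) := by
  rw [← continuousOn_univ]
  exact (continuousOn_pt m).comp (f := fun a : Cs => ((0 : ℝ), a)) (by fun_prop)
    fun a _ => ⟨by simp, mem_univ _⟩

lemma isConnected_Kc (m : ℕ) : IsConnected (Kc m) := by
  refine ⟨⟨_, pt_mem (m := m) (x := 0) (by simp) zeros⟩, ?_⟩
  rw [isPreconnected_iff_subset_of_disjoint]
  intro O1 O2 hO1 hO2 hcov hdis
  -- every strand lies in one of the two sets
  have hstr : ∀ a : Cs, (fun x : ℝ => pt m x a) '' Icc (0 : ℝ) 1 ⊆ O1 ∨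
      (fun x : ℝ => pt m x a) '' Icc (0 : ℝ) 1 ⊆ O2 := by
    intro a
    have hc : IsPreconnected ((fun x : ℝ => pt m x a) '' Icc (0 : ℝ) 1) :=
      isPreconnected_Icc.image _ (continuousOn_strand m a)
    have hsub : (fun x : ℝ => pt m x a) '' Icc (0 : ℝ) 1 ⊆ Kc m := by
      rintro _ ⟨x, hx, rfl⟩; exact pt_mem hx a
    rw [isPreconnected_iff_subset_of_disjoint] at hc
    apply hc O1 O2 hO1 hO2 (hsub.trans hcov)
    rw [← subset_empty_iff, ← hdis]
    exact inter_subset_inter_left _ hsub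
  have hnot : ∀ P ∈ Kc m, P ∈ O1 → P ∉ O2 := by
    intro P hP h1 h2
    have : P ∈ Kc m ∩ (O1 ∩ O2) := ⟨hP, h1, h2⟩
    rw [hdis] at this
    exact this
  let A : Set Cs := {a | pt m 0 a ∈ O1}
  have hAo : IsOpen A := hO1.preimage (continuous_base m)
  have hAc : Aᶜ = {a | pt m 0 a ∈ O2} := by
    ext a
    constructor
    · intro h
      exact (hcov (pt_mem (by simp) a)).resolve_left h
    · intro h h'
      exact hnot _ (pt_mem (by simp) a) h' h
  have hA : IsClopen A := by
    refine ⟨?_, hAo⟩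
    rw [← isOpen_compl_iff, hAc]
    exact hO2.preimage (continuous_base m)
  have hA1 : ∀ a ∈ A, ∀ x ∈ Icc (0 : ℝ) 1, pt m x a ∈ O1 := by
    intro a ha x hx
    rcases hstr a with h | h
    · exact h ⟨x, hx, rfl⟩
    · exact absurd (h ⟨0, by simp, rfl⟩) (hnot _ (pt_mem (by simp) a) ha)
  have hA2 : ∀ a ∉ A, ∀ x ∈ Icc (0 : ℝ) 1, pt m x a ∈ O2 := by
    intro a ha x hx
    rcases hstr a with h | h
    · exact absurd (h ⟨0, by simp, rfl⟩) ha
    · exact h ⟨x, hx, rfl⟩
  obtain ⟨N, hN⟩ := clopen_dep hA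
  have hall := chain N A hN (by
    intro a b hab
    obtain ⟨x, hx, hU, hZ⟩ := hab.meet false
    have he : pt m x a = pt m x b := by
      unfold pt; rw [hU, hZ]
    constructor
    · intro ha
      by_contra hb
      have h1 := hA1 a ha x hx
      have h2 := hA2 b hb x hx
      rw [he] at h1
      exact hnot _ (pt_mem hx b) h1 h2
    · intro hb
      by_contra ha
      have h1 := hA1 b hb x hx
      have h2 := hA2 a ha x hx
      rw [he] at h2
      exact hnot _ (pt_mem hx b) h1 h2)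
  by_cases hz : zeros ∈ A
  · left
    rintro _ ⟨⟨x, a⟩, ⟨hx, -⟩, rfl⟩
    exact hA1 a ((hall a zeros).mpr hz) x hx
  · right
    rintro _ ⟨⟨x, a⟩, ⟨hx, -⟩, rfl⟩
    exact hA2 a (fun h => hz ((hall a zeros).mp h)) x hx

/-! ### the Lipschitz functions -/

lemma bd_le (m : ℕ) (x x' : ℝ) (a b : Cs) :
    bd false x a x' b ≤ 9 * dist (pt m x a) (pt m x' b) := by
  have h (i : Fin (m + 3)) : |pt m x a i - pt m x' b i| ≤ dist (pt m x a) (pt m x' b) := by
    rw [dist_eq_norm]
    have := PiLp.norm_apply_le (pt m x a - pt m x' b) i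
    simpa [Real.norm_eq_abs] using this
  have h0 := h 0
  have h1 := h ⟨1, by omega⟩
  have h2 := h ⟨2, by omega⟩
  rw [pt_zero, pt_zero] at h0
  rw [pt_one, pt_one] at h1
  rw [pt_two, pt_two] at h2
  unfold bd
  have := dist_nonneg (x := pt m x a) (y := pt m x' b)
  linarith

/-- **Theorem.** -/
theorem zigzag (m : ℕ) : ∃ K : Set (Eu m), IsCompact K ∧ IsConnected K ∧ ∃ p ∈ K, ∃ q ∈ K,
    ∀ γ : ℝ → Eu m, ContinuousOn γ (Icc 0 1) → γ 0 = p → γ 1 = q →
      ENNReal.ofReal (1 / 100) ≤ lengthOutside γ K := by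
  classical
  refine ⟨Kc m, isCompact_Kc m, isConnected_Kc m, pt m 0 zeros, pt_mem (by simp) _,
    pt m 1 twos, pt_mem (by simp) _, ?_⟩
  intro γ hγ h0 h1
  refine exc_bound (xc := fun P : Eu m => P 0) (C := 9) (isCompact_Kc m).isClosed
    (pt_mem (by simp) _) (pt_mem (by simp) _) (by fun_prop) (by norm_num) ?_ hγ h0 h1
  intro n
  -- the function on `K`
  have hrep : ∀ P : Eu m, ∃ q : ℝ × Cs, P ∈ Kc m → q.1 ∈ Icc (0 : ℝ) 1 ∧ pt m q.1 q.2 = P := by
    intro P
    by_cases hP : P ∈ Kc m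
    · obtain ⟨q, hq, rfl⟩ := hP
      exact ⟨q, fun _ => ⟨hq.1, rfl⟩⟩
    · exact ⟨(0, zeros), fun h => absurd h hP⟩
  choose rep hrep using hrep
  let f : Eu m → ℝ := fun P => u n false (rep P).1 (rep P).2
  have hf : LipschitzOnWith 9 f (Kc m) := by
    apply LipschitzOnWith.of_dist_le_mul
    intro P hP Q hQ
    obtain ⟨hx, hPe⟩ := hrep P hP
    obtain ⟨hx', hQe⟩ := hrep Q hQ
    have h2 := (lip hx hx' n false (rep P).2 (rep Q).2).trans (bd_le m _ _ _ _)
    rw [hPe, hQe] at h2
    rw [Real.dist_eq]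
    exact h2
  obtain ⟨S, hS, hSf⟩ := hf.extend_real
  have hval : ∀ x ∈ Icc (0 : ℝ) 1, ∀ a : Cs, S (pt m x a) = u n false x a := by
    intro x hx a
    rw [← hSf (pt_mem hx a)]
    obtain ⟨hx', hPe⟩ := hrep _ (pt_mem (m := m) hx a)
    have h2 := (lip hx' hx n false (rep (pt m x a)).2 a).trans (bd_le m _ _ _ _)
    rw [hPe, dist_self, mul_zero] at h2
    have h3 : u n false (rep (pt m x a)).1 (rep (pt m x a)).2 - u n false x a = 0 :=
      abs_eq_zero.mp (le_antisymm h2 (abs_nonneg _))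
    show u n false (rep (pt m x a)).1 (rep (pt m x a)).2 = u n false x a
    linarith
  have hz : ∀ n, u n false 0 zeros = 0 := by
    intro n
    induction n with
    | zero => simp [u, D]
    | succ n ih =>
      have h : tl zeros = zeros := rfl
      have h0 : zeros 0 = 0 := rfl
      simp only [u, h, h0]
      simp [nx, ih]
  have ht : ∀ n, u n false 1 twos = 1 := by
    intro n
    induction n with
    | zero => simp [u, D]
    | succ n ih =>
      have h : tl twos = twos := rfl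
      have h0 : twos 0 = 2 := rfl
      simp only [u, h, h0]
      simp [nx, ih]
      norm_num
  refine ⟨S, hS, ?_, ?_, ?_⟩
  · rw [hval 0 (by simp), hz]
  · rw [hval 1 (by simp), ht]
  · rintro j _ ⟨⟨x, a⟩, ⟨hx, -⟩, rfl⟩ _ ⟨⟨x', b⟩, ⟨hx', -⟩, rfl⟩ g1 g2 g3 g4
    simp only at hx hx' g1 g2 g3 g4 ⊢
    rw [hval x hx] at g1 g2
    rw [hval x' hx'] at g3 g4
    rw [pt_zero, pt_zero]
    exact wave hx hx' g1 g2 g3 g4

end Pool.Agent.Q151.Zig
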