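import Mathlib

/-!
# Length of a curve outside a set: the general lower bound
-/

set_option autoImplicit false

open Set Filter Topology MeasureTheory

namespace Pool.Agent.Q151.Zig

variable {E : Type*} [PseudoMetricSpace E]

/-- the part of `[0, 1]` which the curve `γ` spends outside `K` -/
def outside (γ : ℝ → E) (K : Set E) : Set ℝ := {t | t ∈ Icc (0 : ℝ) 1 ∧ γ t ∉ K}

/-- the length of `γ ∖ K`: the sum, over the connected components `J` of
`{t ∈ [0,1] | γ t ∉ K}`, of the lengths (variations) of `γ|_J` -/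
noncomputable def lengthOutside (γ : ℝ → E) (K : Set E) : ENNReal :=
  ∑' J : {J : Set ℝ // ∃ t ∈ outside γ K, J = connectedComponentIn (outside γ K) t},
    eVariationOn γ J.1

/-- the first time -/
noncomputable def fst (σ : ℝ → ℝ) (s : ℝ) : ℝ := sInf {t | t ∈ Icc (0 : ℝ) 1 ∧ σ t = s}

section hit
variable {σ : ℝ → ℝ} (hσ : ContinuousOn σ (Icc 0 1)) (h0 : σ 0 = 0) (h1 : σ 1 = 1)
include hσ h0 h1

lemma hit_nonempty {s : ℝ} (hs : s ∈ Icc (0 : ℝ) 1) :
    {t | t ∈ Icc (0 : ℝ) 1 ∧ σ t = s}.Nonempty := by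
  have := intermediate_value_Icc (zero_le_one' ℝ) hσ
  rw [h0, h1] at this
  obtain ⟨t, ht, hts⟩ := this hs
  exact ⟨t, ht, hts⟩

lemma fst_mem {s : ℝ} (hs : s ∈ Icc (0 : ℝ) 1) :
    fst σ s ∈ Icc (0 : ℝ) 1 ∧ σ (fst σ s) = s := by
  have hcl : IsClosed {t | t ∈ Icc (0 : ℝ) 1 ∧ σ t = s} := by
    have : {t | t ∈ Icc (0 : ℝ) 1 ∧ σ t = s} = Icc (0 : ℝ) 1 ∩ σ ⁻¹' {s} := by
      ext t; simp
    rw [this]
    exact hσ.preimage_isClosed_of_isClosed isClosed_Icc isClosed_singleton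
  exact hcl.csInf_mem (hit_nonempty hσ h0 h1 hs) ⟨0, fun t ht => ht.1.1⟩

lemma fst_mono {s s' : ℝ} (hs : 0 ≤ s) (hss : s ≤ s') (hs' : s' ≤ 1) : fst σ s ≤ fst σ s' := by
  have h2 := fst_mem hσ h0 h1 (s := s') ⟨hs.trans hss, hs'⟩
  have h3 := intermediate_value_Icc h2.1.1 (hσ.mono (Icc_subset_Icc_right h2.1.2))
  rw [h0, h2.2] at h3
  obtain ⟨t, ht, hts⟩ := h3 ⟨hs, hss⟩
  have h4 : fst σ s ≤ t :=
    csInf_le ⟨0, fun t ht => ht.1.1⟩ ⟨⟨ht.1, ht.2.trans h2.1.2⟩, hts⟩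
  exact h4.trans ht.2

end hit

/-- the image of the outside part is small -/
lemma volume_image_le {γ : ℝ → E} {K : Set E} (hK : IsClosed K)
    (hγ : ContinuousOn γ (Icc 0 1)) (h0 : γ 0 ∈ K) (h1 : γ 1 ∈ K) {S : E → ℝ} {C : NNReal}
    (hS : LipschitzWith C S) :
    volume ((S ∘ γ) '' outside γ K) ≤ C * lengthOutside γ K := by
  have hU : outside γ K = Ioo (0 : ℝ) 1 ∩ γ ⁻¹' Kᶜ := by
    ext t
    simp only [outside, mem_ofPred_eq, mem_inter_iff, mem_preimage, mem_compl_iff]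
    constructor
    · rintro ⟨⟨h2, h3⟩, h4⟩
      refine ⟨⟨lt_of_le_of_ne h2 ?_, lt_of_le_of_ne h3 ?_⟩, h4⟩
      · rintro rfl; exact h4 h0
      · rintro rfl; exact h4 h1
    · rintro ⟨h2, h3⟩
      exact ⟨Ioo_subset_Icc_self h2, h3⟩
  have hopen : IsOpen (outside γ K) := by
    rw [hU]
    exact (hγ.mono Ioo_subset_Icc_self).isOpen_inter_preimage isOpen_Ioo hK.isOpen_compl
  let I := {J : Set ℝ // ∃ t ∈ outside γ K, J = connectedComponentIn (outside γ K) t}
  have hcount : Countable I := by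
    have hset : ({J : Set ℝ | ∃ t ∈ outside γ K, J = connectedComponentIn (outside γ K) t}
        : Set (Set ℝ)).Countable := by
      apply Set.PairwiseDisjoint.countable_of_isOpen (s := id)
      · rintro J ⟨t, ht, rfl⟩ J' ⟨t', ht', rfl⟩ hne
        rw [Function.onFun, id, id, disjoint_left]
        intro z hz hz'
        exact hne ((connectedComponentIn_eq hz).trans (connectedComponentIn_eq hz').symm)
      · rintro J ⟨t, ht, rfl⟩
        exact hopen.connectedComponentIn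
      · rintro J ⟨t, ht, rfl⟩
        exact ⟨t, mem_connectedComponentIn ht⟩
    exact hset.to_subtype
  have hcov : (S ∘ γ) '' outside γ K ⊆ ⋃ J : I, (S ∘ γ) '' J.1 := by
    rintro _ ⟨t, ht, rfl⟩
    rw [mem_iUnion]
    exact ⟨⟨_, t, ht, rfl⟩, t, mem_connectedComponentIn ht, rfl⟩
  calc volume ((S ∘ γ) '' outside γ K) ≤ volume (⋃ J : I, (S ∘ γ) '' J.1) := measure_mono hcov
    _ ≤ ∑' J : I, volume ((S ∘ γ) '' J.1) := measure_iUnion_le _
    _ ≤ ∑' J : I, C * eVariationOn γ J.1 := by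
      apply ENNReal.tsum_le_tsum
      intro J
      refine (Real.volume_le_diam _).trans ?_
      rw [Metric.ediam_le_iff]
      rintro _ ⟨t, ht, rfl⟩ _ ⟨t', ht', rfl⟩
      refine (hS.edist_le_mul (γ t) (γ t')).trans ?_
      gcongr
      exact eVariationOn.edist_le γ ht ht'
    _ = C * lengthOutside γ K := by rw [ENNReal.tsum_mul_left]; rfl

end Pool.Agent.Q151.Zig
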