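import Mathlib

/-!
# The zigzag continuum: digit sequences and the Lipschitz estimate
-/

set_option autoImplicit false

open Set Filter Topology

namespace Pool.Agent.Q151.Zig

/-- digit sequences -/
abbrev Cs := ℕ → Fin 3

/-- the tail -/
def tl (a : Cs) : Cs := fun k => a (k + 1)

/-- add a first digit -/
def cons (c : Fin 3) (a : Cs) : Cs
  | 0 => c
  | k + 1 => a k

@[simp] lemma cons_zero (c : Fin 3) (a : Cs) : cons c a 0 = c := rfl
@[simp] lemma tl_cons (c : Fin 3) (a : Cs) : tl (cons c a) = a := rfl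

lemma cons_tl (a : Cs) : cons (a 0) (tl a) = a := by
  ext k; cases k <;> rfl

/-- progress along a strand with orientation `e` -/
def D (e : Bool) (x : ℝ) : ℝ := if e then 1 - x else x

@[simp] lemma D_not (e : Bool) (x : ℝ) : D (!e) x = 1 - D e x := by
  cases e <;> simp [D]

lemma D_mem {x : ℝ} (hx : x ∈ Icc (0 : ℝ) 1) (e : Bool) : 0 ≤ D e x ∧ D e x ≤ 1 := by
  cases e <;> simp only [D] <;> simp <;> constructor <;> linarith [hx.1, hx.2]

lemma D_lip (e : Bool) (x y : ℝ) : |D e x - D e y| = |x - y| := by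
  cases e
  · simp [D]
  · simp only [D, if_true]
    rw [show 1 - x - (1 - y) = -(x - y) by ring, abs_neg]

/-- the orientation after a digit -/
def nx (e : Bool) (d : Fin 3) : Bool := if d = 1 then !e else e

/-- the offset -/
noncomputable def g (e : Bool) (x : ℝ) (d : Fin 3) : ℝ :=
  if d = 0 then D e x else if d = 1 then 1 else 1 - D e x

lemma g_mem {x : ℝ} (hx : x ∈ Icc (0 : ℝ) 1) (e : Bool) (d : Fin 3) :
    0 ≤ g e x d ∧ g e x d ≤ 1 := by
  have := D_mem hx e
  unfold g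
  split_ifs <;> constructor <;> linarith

/-- the orientation at place `k` -/
def par : ℕ → Bool → Cs → Bool
  | 0, e, _ => e
  | k + 1, e, a => par k (nx e (a 0)) (tl a)

/-- the second coordinate -/
noncomputable def U (a : Cs) : ℝ := ∑' k, ((a k).val : ℝ) * (1 / 3) ^ (k + 1)

/-- the third coordinate -/
noncomputable def Z (e : Bool) (x : ℝ) (a : Cs) : ℝ :=
  ∑' k, g (par k e a) x (a k) * (1 / 3) ^ (k + 1)

lemma summable_geo : Summable fun k : ℕ => ((1 : ℝ) / 3) ^ (k + 1) :=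
  (summable_nat_add_iff 1).mpr (summable_geometric_of_lt_one (by norm_num) (by norm_num))

lemma tsum_geo : ∑' k : ℕ, ((1 : ℝ) / 3) ^ (k + 1) = 1 / 2 := by
  have h := tsum_geometric_of_lt_one (r := (1 : ℝ) / 3) (by norm_num) (by norm_num)
  have h2 : ∀ k : ℕ, ((1 : ℝ) / 3) ^ (k + 1) = (1 / 3) ^ k * (1 / 3) := fun k => pow_succ _ _
  simp_rw [h2]
  rw [tsum_mul_right, h]
  norm_num

lemma val_le (d : Fin 3) : (d.val : ℝ) ≤ 2 := by
  have : d.val ≤ 2 := by omega
  exact_mod_cast this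

lemma summable_bdd {f : ℕ → ℝ} {M : ℝ} (h0 : ∀ k, 0 ≤ f k) (hM : ∀ k, f k ≤ M) :
    Summable fun k => f k * ((1 : ℝ) / 3) ^ (k + 1) :=
  Summable.of_nonneg_of_le (fun k => mul_nonneg (h0 k) (by positivity))
    (fun k => mul_le_mul_of_nonneg_right (hM k) (by positivity)) (summable_geo.mul_left M)

lemma tsum_bdd {f : ℕ → ℝ} {M : ℝ} (h0 : ∀ k, 0 ≤ f k) (hM : ∀ k, f k ≤ M) :
    0 ≤ ∑' k, f k * ((1 : ℝ) / 3) ^ (k + 1) ∧ ∑' k, f k * ((1 : ℝ) / 3) ^ (k + 1) ≤ M / 2 := by
  refine ⟨tsum_nonneg fun k => mul_nonneg (h0 k) (by positivity), ?_⟩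
  calc ∑' k, f k * ((1 : ℝ) / 3) ^ (k + 1) ≤ ∑' k : ℕ, M * ((1 : ℝ) / 3) ^ (k + 1) :=
        (summable_bdd h0 hM).tsum_le_tsum
          (fun k => mul_le_mul_of_nonneg_right (hM k) (by positivity)) (summable_geo.mul_left M)
    _ = M / 2 := by rw [tsum_mul_left, tsum_geo]; ring

lemma U_mem (a : Cs) : 0 ≤ U a ∧ U a ≤ 1 := by
  have := tsum_bdd (f := fun k => ((a k).val : ℝ)) (M := 2) (fun k => by positivity)
    (fun k => val_le _)
  simpa [U] using this

lemma Z_mem {x : ℝ} (hx : x ∈ Icc (0 : ℝ) 1) (e : Bool) (a : Cs) :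
    0 ≤ Z e x a ∧ Z e x a ≤ 1 / 2 :=
  tsum_bdd (f := fun k => g (par k e a) x (a k)) (M := 1) (fun _ => (g_mem hx _ _).1)
    (fun _ => (g_mem hx _ _).2)

lemma U_rec (a : Cs) : U a = ((a 0).val + U (tl a)) / 3 := by
  unfold U
  rw [(summable_bdd (f := fun k => ((a k).val : ℝ)) (M := 2) (fun k => by positivity)
    (fun k => val_le _)).tsum_eq_zero_add]
  have : ∀ k : ℕ, ((a (k + 1)).val : ℝ) * (1 / 3) ^ (k + 1 + 1) =
      (((tl a) k).val : ℝ) * (1 / 3) ^ (k + 1) * (1 / 3) := by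
    intro k; simp only [tl]; ring
  simp_rw [this]
  rw [tsum_mul_right]
  ring

lemma Z_rec {x : ℝ} (hx : x ∈ Icc (0 : ℝ) 1) (e : Bool) (a : Cs) :
    Z e x a = (g e x (a 0) + Z (nx e (a 0)) x (tl a)) / 3 := by
  unfold Z
  rw [(summable_bdd (f := fun k => g (par k e a) x (a k)) (M := 1) (fun _ => (g_mem hx _ _).1)
    (fun _ => (g_mem hx _ _).2)).tsum_eq_zero_add]
  have : ∀ k : ℕ, g (par (k + 1) e a) x (a (k + 1)) * ((1 : ℝ) / 3) ^ (k + 1 + 1) =
      g (par k (nx e (a 0)) (tl a)) x (tl a k) * (1 / 3) ^ (k + 1) * (1 / 3) := by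
    intro k; simp only [tl, par]; ring
  simp_rw [this]
  rw [tsum_mul_right]
  simp only [par]
  ring

/-- the zigzag coordinate at level `n`, scaled to `[0, 1]` -/
noncomputable def u : ℕ → Bool → ℝ → Cs → ℝ
  | 0, e, x, _ => D e x
  | n + 1, e, x, a => ((a 0).val + u n (nx e (a 0)) x (tl a)) / 3

lemma u_mem {x : ℝ} (hx : x ∈ Icc (0 : ℝ) 1) (n : ℕ) : ∀ (e : Bool) (a : Cs),
    0 ≤ u n e x a ∧ u n e x a ≤ 1 := by
  induction n with
  | zero => intro e a; exact D_mem hx e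
  | succ n ih =>
    intro e a
    have h1 := ih (nx e (a 0)) (tl a)
    have h2 := val_le (a 0)
    have h3 : (0 : ℝ) ≤ (a 0).val := by positivity
    simp only [u]
    constructor <;> linarith

lemma fin3 (d : Fin 3) : d = 0 ∨ d = 1 ∨ d = 2 := by
  fin_cases d <;> simp

lemma upper (n : ℕ) {x : ℝ} (hx : x ∈ Icc (0 : ℝ) 1) : ∀ (e : Bool) (a : Cs),
    1 - u n e x a ≤ 2 * (1 - U a) + (1 - D e x) := by
  induction n with
  | zero =>
    intro e a
    simp only [u]
    linarith [(U_mem a).2]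
  | succ n ih =>
    intro e a
    have h1 := ih (nx e (a 0)) (tl a)
    have h2 := u_mem hx n (nx e (a 0)) (tl a)
    have h3 := U_mem (tl a)
    have h4 := D_mem hx e
    rw [U_rec a]
    simp only [u]
    rcases fin3 (a 0) with h | h | h <;> rw [h] at h1 h2 ⊢ <;> simp [nx] at h1 h2 ⊢ <;> linarith

lemma lower (n : ℕ) {x : ℝ} (hx : x ∈ Icc (0 : ℝ) 1) : ∀ (e : Bool) (a : Cs),
    u n e x a ≤ 2 * U a + D e x := by
  induction n with
  | zero =>
    intro e a
    simp only [u]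
    linarith [(U_mem a).1]
  | succ n ih =>
    intro e a
    have h1 := ih (nx e (a 0)) (tl a)
    have h2 := u_mem hx n (nx e (a 0)) (tl a)
    have h3 := U_mem (tl a)
    have h4 := D_mem hx e
    rw [U_rec a]
    simp only [u]
    rcases fin3 (a 0) with h | h | h <;> rw [h] at h1 h2 ⊢ <;> simp [nx] at h1 h2 ⊢ <;> linarith

lemma g0 (e : Bool) (x : ℝ) : g e x 0 = D e x := by simp [g]
lemma g1 (e : Bool) (x : ℝ) : g e x 1 = 1 := by simp [g]
lemma g2 (e : Bool) (x : ℝ) : g e x 2 = 1 - D e x := by simp [g]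

lemma upperZ (k : ℕ) {x : ℝ} (hx : x ∈ Icc (0 : ℝ) 1) : ∀ (e : Bool) (a : Cs),
    |Z e x a - (1 - D e x) / 2| ≤ 3 / 2 * (1 - U a) + (1 / 3) ^ k := by
  induction k with
  | zero =>
    intro e a
    have h1 := Z_mem hx e a
    have h2 := D_mem hx e
    have h3 := U_mem a
    rw [abs_le]
    constructor <;> simp <;> linarith
  | succ k ih =>
    intro e a
    have h1 := ih (nx e (a 0)) (tl a)
    have h2 := Z_mem hx e a
    have h3 := U_mem (tl a)
    have h4 := D_mem hx e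
    have h5 : (0 : ℝ) ≤ (1 / 3) ^ (k + 1) := by positivity
    have hU := U_rec a
    have hZ := Z_rec hx e a
    rcases fin3 (a 0) with h | h | h
    · rw [h] at hU
      simp at hU
      rw [abs_le]
      constructor <;> linarith
    · rw [h] at hU
      simp at hU
      rw [abs_le]
      constructor <;> linarith
    · rw [h, g2] at hZ
      rw [h] at hU h1
      simp [nx, -one_div] at hU hZ h1
      rw [abs_le] at h1 ⊢
      rw [pow_succ]
      constructor <;> linarith [h1.1, h1.2]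

lemma lowerZ (k : ℕ) {x : ℝ} (hx : x ∈ Icc (0 : ℝ) 1) : ∀ (e : Bool) (a : Cs),
    |Z e x a - D e x / 2| ≤ 3 / 2 * U a + (1 / 3) ^ k := by
  induction k with
  | zero =>
    intro e a
    have h1 := Z_mem hx e a
    have h2 := D_mem hx e
    have h3 := U_mem a
    rw [abs_le]
    constructor <;> simp <;> linarith
  | succ k ih =>
    intro e a
    have h1 := ih (nx e (a 0)) (tl a)
    have h2 := Z_mem hx e a
    have h3 := U_mem (tl a)
    have h4 := D_mem hx e
    have h5 : (0 : ℝ) ≤ (1 / 3) ^ (k + 1) := by positivity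
    have hU := U_rec a
    have hZ := Z_rec hx e a
    rcases fin3 (a 0) with h | h | h
    · rw [h, g0] at hZ
      rw [h] at hU h1
      simp [nx, -one_div] at hU hZ h1
      rw [abs_le] at h1 ⊢
      rw [pow_succ]
      constructor <;> linarith [h1.1, h1.2]
    · rw [h] at hU
      simp at hU
      rw [abs_le]
      constructor <;> linarith
    · rw [h] at hU
      simp at hU
      rw [abs_le]
      constructor <;> linarith

lemma pow_small : Tendsto (fun k : ℕ => ((1 : ℝ) / 3) ^ k) atTop (𝓝 0) :=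
  tendsto_pow_atTop_nhds_zero_of_lt_one (by norm_num) (by norm_num)

lemma upperZ' {x : ℝ} (hx : x ∈ Icc (0 : ℝ) 1) (e : Bool) (a : Cs) :
    |Z e x a - (1 - D e x) / 2| ≤ 3 / 2 * (1 - U a) := by
  have h := (tendsto_const_nhds (x := 3 / 2 * (1 - U a))).add pow_small
  rw [add_zero] at h
  exact ge_of_tendsto' h fun k => upperZ k hx e a

lemma lowerZ' {x : ℝ} (hx : x ∈ Icc (0 : ℝ) 1) (e : Bool) (a : Cs) :
    |Z e x a - D e x / 2| ≤ 3 / 2 * U a := by
  have h := (tendsto_const_nhds (x := 3 / 2 * U a)).add pow_small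
  rw [add_zero] at h
  exact ge_of_tendsto' h fun k => lowerZ k hx e a

/-- the bound of the Lipschitz estimate -/
noncomputable def bd (e : Bool) (x : ℝ) (a : Cs) (x' : ℝ) (b : Cs) : ℝ :=
  4 / 3 * |x - x'| + 5 * |U a - U b| + 2 * |Z e x a - Z e x' b|

lemma bd_comm (e : Bool) (x : ℝ) (a : Cs) (x' : ℝ) (b : Cs) : bd e x a x' b = bd e x' b x a := by
  unfold bd
  rw [abs_sub_comm x, abs_sub_comm (U a), abs_sub_comm (Z e x a)]

/-- adjacent digits -/
lemma adj {x x' : ℝ} (hx : x ∈ Icc (0 : ℝ) 1) (hx' : x' ∈ Icc (0 : ℝ) 1) (n : ℕ) (e : Bool)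
    (a b : Cs) (h : (a 0 = 0 ∧ b 0 = 1) ∨ (a 0 = 1 ∧ b 0 = 2)) :
    |u (n + 1) e x a - u (n + 1) e x' b| ≤ bd e x a x' b := by
  have hUa := U_rec a
  have hUb := U_rec b
  have hZa := Z_rec hx e a
  have hZb := Z_rec hx' e b
  have hα := U_mem (tl a)
  have hβ := U_mem (tl b)
  have dx := D_mem hx e
  have dx' := D_mem hx' e
  have dl := abs_le.mp (D_lip e x x').le
  have hη := abs_nonneg (x - x')
  have hu1 := u_mem hx n (nx e (a 0)) (tl a)
  have hu2 := u_mem hx' n (nx e (b 0)) (tl b)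
  have up := upper n hx (nx e (a 0)) (tl a)
  have lo := lower n hx' (nx e (b 0)) (tl b)
  have upZ := upperZ' hx (nx e (a 0)) (tl a)
  have loZ := lowerZ' hx' (nx e (b 0)) (tl b)
  rw [abs_le] at upZ loZ
  unfold bd
  have eU : |U a - U b| = U b - U a := by
    rw [abs_sub_comm, abs_of_nonneg]
    rcases h with ⟨h1, h2⟩ | ⟨h1, h2⟩ <;> rw [h1] at hUa <;> rw [h2] at hUb <;>
      simp at hUa hUb <;> linarith
  have z1 := le_abs_self (Z e x a - Z e x' b)
  have z2 := neg_abs_le (Z e x a - Z e x' b)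
  rw [eU]
  simp only [u]
  rw [abs_sub_comm, abs_le]
  rcases h with ⟨h1, h2⟩ | ⟨h1, h2⟩
  · rw [h1] at hUa hZa hu1 up upZ ⊢
    rw [h2] at hUb hZb hu2 lo loZ ⊢
    rw [g0] at hZa
    rw [g1] at hZb
    simp [nx] at hUa hUb hZa hZb hu1 hu2 up lo upZ loZ ⊢
    constructor <;> linarith [upZ.1, upZ.2, loZ.1, loZ.2]
  · rw [h1] at hUa hZa hu1 up upZ ⊢
    rw [h2] at hUb hZb hu2 lo loZ ⊢
    rw [g1] at hZa
    rw [g2] at hZb
    simp [nx] at hUa hUb hZa hZb hu1 hu2 up lo upZ loZ ⊢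
    constructor <;> linarith [upZ.1, upZ.2, loZ.1, loZ.2]

/-- far digits -/
lemma far {x x' : ℝ} (hx : x ∈ Icc (0 : ℝ) 1) (hx' : x' ∈ Icc (0 : ℝ) 1) (n : ℕ) (e : Bool)
    (a b : Cs) (h : a 0 = 0 ∧ b 0 = 2) :
    |u (n + 1) e x a - u (n + 1) e x' b| ≤ bd e x a x' b := by
  have hUa := U_rec a
  have hUb := U_rec b
  have hα := U_mem (tl a)
  have hβ := U_mem (tl b)
  have hη := abs_nonneg (x - x')
  have hu1 := u_mem hx (n + 1) e a
  have hu2 := u_mem hx' (n + 1) e b
  have z1 := abs_nonneg (Z e x a - Z e x' b)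
  have z2 := neg_abs_le (U a - U b)
  rw [h.1] at hUa
  rw [h.2] at hUb
  simp at hUa hUb
  unfold bd
  rw [abs_le]
  constructor <;> linarith

/-- **the Lipschitz estimate** -/
lemma lip {x x' : ℝ} (hx : x ∈ Icc (0 : ℝ) 1) (hx' : x' ∈ Icc (0 : ℝ) 1) (n : ℕ) :
    ∀ (e : Bool) (a b : Cs), |u n e x a - u n e x' b| ≤ bd e x a x' b := by
  induction n with
  | zero =>
    intro e a b
    simp only [u, bd]
    rw [D_lip]
    have h1 := abs_nonneg (x - x')
    have h2 := abs_nonneg (U a - U b)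
    have h3 := abs_nonneg (Z e x a - Z e x' b)
    linarith
  | succ n ih =>
    intro e a b
    by_cases hab : a 0 = b 0
    · have h := ih (nx e (a 0)) (tl a) (tl b)
      unfold bd at h ⊢
      have hUa := U_rec a
      have hUb := U_rec b
      have hZa := Z_rec hx e a
      have hZb := Z_rec hx' e b
      rw [← hab] at hUb hZb
      have h1 : |U (tl a) - U (tl b)| = 3 * |U a - U b| := by
        rw [hUa, hUb, ← abs_of_nonneg (show (0 : ℝ) ≤ 3 by norm_num), ← abs_mul]
        congr 1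
        rw [abs_of_nonneg (show (0 : ℝ) ≤ 3 by norm_num)]
        ring
      have hg : |g e x (a 0) - g e x' (a 0)| ≤ |x - x'| := by
        have := D_lip e x x'
        rcases fin3 (a 0) with h | h | h <;> rw [h]
        · rw [g0, g0, this]
        · rw [g1, g1]; simp
        · rw [g2, g2, show 1 - D e x - (1 - D e x') = -(D e x - D e x') by ring, abs_neg, this]
      have h2 : |Z (nx e (a 0)) x (tl a) - Z (nx e (a 0)) x' (tl b)| ≤
          3 * |Z e x a - Z e x' b| + |x - x'| := by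
        have e1 : Z (nx e (a 0)) x (tl a) - Z (nx e (a 0)) x' (tl b) =
            3 * (Z e x a - Z e x' b) - (g e x (a 0) - g e x' (a 0)) := by
          rw [hZa, hZb]; ring
        rw [e1]
        refine (abs_sub _ _).trans ?_
        rw [abs_mul, abs_of_nonneg (show (0 : ℝ) ≤ 3 by norm_num)]
        linarith
      simp only [u]
      rw [← hab]
      have e2 : ((a 0).val + u n (nx e (a 0)) x (tl a)) / 3 -
          ((a 0).val + u n (nx e (a 0)) x' (tl b)) / 3 =
          (u n (nx e (a 0)) x (tl a) - u n (nx e (a 0)) x' (tl b)) / 3 := by ring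
      rw [e2, abs_div, abs_of_nonneg (show (0 : ℝ) ≤ 3 by norm_num)]
      have := abs_nonneg (x - x')
      rw [h1] at h
      linarith
    · rcases fin3 (a 0) with h | h | h <;> rcases fin3 (b 0) with h' | h' | h'
      · exact absurd (h.trans h'.symm) hab
      · exact adj hx hx' n e a b (Or.inl ⟨h, h'⟩)
      · exact far hx hx' n e a b ⟨h, h'⟩
      · rw [abs_sub_comm, bd_comm]; exact adj hx' hx n e b a (Or.inl ⟨h', h⟩)
      · exact absurd (h.trans h'.symm) hab
      · exact adj hx hx' n e a b (Or.inr ⟨h, h'⟩)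
      · rw [abs_sub_comm, bd_comm]; exact far hx' hx n e b a ⟨h', h⟩
      · rw [abs_sub_comm, bd_comm]; exact adj hx' hx n e b a (Or.inr ⟨h', h⟩)
      · exact absurd (h.trans h'.symm) hab

end Pool.Agent.Q151.Zig
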